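import Pool.Agent.N822.OG.Stm

/-! OG/DESC (helper547 for helper822). -/

set_option autoImplicit false

open Finset SimpleGraph Pool.Agent.N822.OG

namespace Pool.Agent.N547.OG.Desc

lemma fdiff (n : ℕ) : (n + 1) ^ 2 / 3 = n ^ 2 / 3 + 2 * (n + 1) / 3 := by
  obtain ⟨k, hk⟩ : ∃ k, n = 3 * k ∨ n = 3 * k + 1 ∨ n = 3 * k + 2 := ⟨n / 3, by omega⟩
  rcases hk with h | h | h <;> subst h
  · have e1 : (3 * k + 1) ^ 2 = 3 * (3 * k ^ 2 + 2 * k) + 1 := by ring
    have e2 : (3 * k) ^ 2 = 3 * (3 * k ^ 2) := by ring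
    rw [e1, e2]
    omega
  · have e1 : (3 * k + 1 + 1) ^ 2 = 3 * (3 * k ^ 2 + 4 * k + 1) + 1 := by ring
    have e2 : (3 * k + 1) ^ 2 = 3 * (3 * k ^ 2 + 2 * k) + 1 := by ring
    rw [e1, e2]
    omega
  · have e1 : (3 * k + 2 + 1) ^ 2 = 3 * (3 * k ^ 2 + 6 * k + 3) := by ring
    have e2 : (3 * k + 2) ^ 2 = 3 * (3 * k ^ 2 + 4 * k + 1) + 1 := by ring
    rw [e1, e2]
    omega

theorem desc : S_DESC := by
  classical
  intro Q hmono ⟨n₀, h0⟩
  set C := n₀ ^ 2 + 1 with hC
  have main : ∀ n, n₀ ≤ n → ∀ (V : Type) [Fintype V] (G : SimpleGraph V), Fintype.card V = n →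
      n ^ 2 / 3 + 3 + (C - (n - n₀)) ≤ G.edgeSet.ncard → Q V G := by
    intro n hn
    induction n, hn using Nat.le_induction with
    | base =>
      intro V _ G hV hE
      exfalso
      have h1 : G.edgeSet.ncard = G.edgeFinset.card := by
        rw [← coe_edgeFinset, Set.ncard_coe_finset]
      have h2 := G.card_edgeFinset_le_card_choose_two
      rw [hV] at h2
      have h3 : n₀.choose 2 ≤ n₀ ^ 2 := Nat.choose_le_pow n₀ 2
      omega
    | succ n hn ih =>
      intro V _ G hV hE
      by_cases hd : ∀ v, 2 * Fintype.card V / 3 ≤ (G.neighborSet v).ncard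
      · refine h0 V G (by omega) hd ?_
        rw [hV]
        omega
      · push Not at hd
        obtain ⟨v, hv⟩ := hd
        have hsub : G.induce ({v}ᶜ : Set V) ⊑ G := ⟨(Embedding.induce _).toCopy⟩
        refine hmono V _ G _ hsub (ih _ (G.induce ({v}ᶜ : Set V)) ?_ ?_)
        · rw [Fintype.card_compl_set, hV]
          simp
        · have h1 : G.edgeSet.ncard = G.edgeFinset.card := by
            rw [← coe_edgeFinset, Set.ncard_coe_finset]
          have h2 : (G.induce ({v}ᶜ : Set V)).edgeSet.ncard =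
              (G.induce ({v}ᶜ : Set V)).edgeFinset.card := by
            rw [← coe_edgeFinset, Set.ncard_coe_finset]
          have h3 : (G.induce ({v}ᶜ : Set V)).edgeFinset.card = G.edgeFinset.card - G.degree v := by
            rw [card_edgeFinset_induce_compl_singleton, card_edgeFinset_deleteIncidenceSet]
          have h4 : (G.neighborSet v).ncard = G.degree v := by
            rw [Set.ncard_eq_toFinset_card']
            rfl
          rw [h2, h3]
          rw [h1] at hE
          rw [h4, hV] at hv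
          have h5 := fdiff n
          omega
  refine ⟨n₀ + C, fun V _ G hV hE => main _ (by omega) V G rfl ?_⟩
  omega

end Pool.Agent.N547.OG.Desc
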