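import Pool.Agent.N822.OG.Stm

/-! OG/FIN (helper547 for helper822). -/

set_option autoImplicit false

open Finset SimpleGraph Pool.Agent.N822.OG

namespace Pool.Agent.N547.OG.Fin

/-- the ordered adjacent pairs in a class -/
lemma inner_le {V : Type} [Fintype V] [DecidableEq V] {G : SimpleGraph V} [DecidableRel G.Adj]
    (p : V → Prop) [DecidablePred p] (h : OneEdge G {v | p v}) :
    (univ.filter (fun e : V × V => G.Adj e.1 e.2 ∧ p e.1 ∧ p e.2)).card ≤ 2 := by
  rcases (univ.filter (fun e : V × V => G.Adj e.1 e.2 ∧ p e.1 ∧ p e.2)).eq_empty_or_nonempty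
    with h0 | ⟨⟨a, b⟩, hab⟩
  · rw [h0, card_empty]
    omega
  · rw [mem_filter] at hab
    obtain ⟨-, hab, ha, hb⟩ := hab
    have : univ.filter (fun e : V × V => G.Adj e.1 e.2 ∧ p e.1 ∧ p e.2) ⊆ {(a, b), (b, a)} := by
      rintro ⟨c, d⟩ hcd
      rw [mem_filter] at hcd
      obtain ⟨-, hcd, hc, hd⟩ := hcd
      rw [mem_insert, mem_singleton]
      rcases h c hc d hd a ha b hb hcd hab with h1 | h1
      · left
        rw [h1.1, h1.2]
      · right
        rw [h1.1, h1.2]
    exact (card_le_card this).trans card_le_two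

lemma ncard_filter {V : Type} [Fintype V] (p : V → Prop) [DecidablePred p] :
    {z | p z}.ncard = (univ.filter p).card := by
  rw [← Set.ncard_coe_finset]
  congr 1
  ext z
  simp

/-- the number of ordered adjacent pairs -/
lemma pairs_card {V : Type} [Fintype V] [DecidableEq V] (G : SimpleGraph V) [DecidableRel G.Adj] :
    (univ.filter (fun e : V × V => G.Adj e.1 e.2)).card = 2 * G.edgeSet.ncard := by
  have h1 : G.edgeSet.ncard = G.edgeFinset.card := by
    rw [← coe_edgeFinset, Set.ncard_coe_finset]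
  rw [h1, ← sum_degrees_eq_twice_card_edges, card_filter, ← univ_product_univ, sum_product]
  refine sum_congr rfl fun v _ => ?_
  rw [← card_filter]
  unfold degree
  congr 1
  ext w
  simp

/-- the number of ordered pairs in different classes -/
lemma cross_card {V : Type} [Fintype V] [DecidableEq V] (c : V → Fin 3) :
    (univ.filter (fun e : V × V => c e.1 ≠ c e.2)).card =
      2 * ((univ.filter (c · = 0)).card * (univ.filter (c · = 1)).card +
        (univ.filter (c · = 0)).card * (univ.filter (c · = 2)).card +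
        (univ.filter (c · = 1)).card * (univ.filter (c · = 2)).card) := by
  have hsub : univ.filter (fun e : V × V => c e.1 ≠ c e.2) =
      (univ.filter (fun ij : Fin 3 × Fin 3 => ij.1 ≠ ij.2)).biUnion
        (fun ij => (univ.filter (c · = ij.1)) ×ˢ (univ.filter (c · = ij.2))) := by
    ext ⟨u, v⟩
    simp only [mem_filter, mem_univ, true_and, mem_biUnion, mem_product, Prod.exists]
    constructor
    · intro h
      exact ⟨c u, c v, h, rfl, rfl⟩
    · rintro ⟨i, j, hij, hu, hv⟩
      rw [hu, hv]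
      exact hij
  rw [hsub, card_biUnion]
  · have hfil : univ.filter (fun ij : Fin 3 × Fin 3 => ij.1 ≠ ij.2) =
        {(0, 1), (0, 2), (1, 0), (1, 2), (2, 0), (2, 1)} := by decide
    rw [hfil]
    rw [sum_insert (by decide), sum_insert (by decide), sum_insert (by decide),
      sum_insert (by decide), sum_insert (by decide), sum_singleton]
    simp only [card_product]
    ring
  · rintro ⟨i, j⟩ _ ⟨k, l⟩ _ hne
    rw [Function.onFun, Finset.disjoint_left]
    rintro ⟨u, v⟩ h1 h2
    simp only [mem_product, mem_filter, mem_univ, true_and] at h1 h2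
    apply hne
    rw [← h1.1, ← h1.2, ← h2.1, ← h2.2]

theorem fin : S_FIN := by
  classical
  intro V _ G t ht hE c hone hcard
  set m : Fin 3 → ℕ := fun i => (univ.filter (c · = i)).card with hm
  have hsum : m 0 + m 1 + m 2 = Fintype.card V := by
    have := card_eq_sum_card_fiberwise (f := c) (s := univ) (t := univ) (fun _ _ => mem_univ _)
    rw [Fin.sum_univ_three, card_univ] at this
    exact this.symm
  -- the pairs
  have hA := pairs_card G
  have hsplit : (univ.filter (fun e : V × V => G.Adj e.1 e.2)).card =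
      (univ.filter (fun e : V × V => G.Adj e.1 e.2 ∧ c e.1 ≠ c e.2)).card +
      ∑ i, (univ.filter (fun e : V × V => G.Adj e.1 e.2 ∧ c e.1 = i ∧ c e.2 = i)).card := by
    rw [← card_filter_add_card_filter_not (s := univ.filter (fun e : V × V => G.Adj e.1 e.2))
      (fun e : V × V => c e.1 ≠ c e.2), filter_filter, filter_filter]
    congr 1
    rw [card_eq_sum_card_fiberwise (f := fun e : V × V => c e.1) (t := univ)
      (fun _ _ => mem_univ _)]
    refine sum_congr rfl fun i _ => ?_
    rw [filter_filter]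
    congr 1
    ext e
    simp only [mem_filter, mem_univ, true_and, not_not]
    constructor
    · rintro ⟨⟨h1, h2⟩, h3⟩
      exact ⟨h1, h3, h2 ▸ h3⟩
    · rintro ⟨h1, h2, h3⟩
      exact ⟨⟨h1, h2.trans h3.symm⟩, h2⟩
  have hin : ∀ i, (univ.filter (fun e : V × V => G.Adj e.1 e.2 ∧ c e.1 = i ∧ c e.2 = i)).card ≤ 2 :=
    fun i => inner_le (fun v => c v = i) (hone i)
  have hcr : (univ.filter (fun e : V × V => G.Adj e.1 e.2 ∧ c e.1 ≠ c e.2)).card ≤
      (univ.filter (fun e : V × V => c e.1 ≠ c e.2)).card := by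
    refine card_le_card fun e he => ?_
    rw [mem_filter] at he ⊢
    exact ⟨he.1, he.2.2⟩
  have hcc := cross_card c
  have hquad : 3 * (m 0 * m 1 + m 0 * m 2 + m 1 * m 2) ≤ Fintype.card V ^ 2 := by
    rw [← hsum]
    zify
    nlinarith [sq_nonneg ((m 0 : ℤ) - m 1), sq_nonneg ((m 0 : ℤ) - m 2),
      sq_nonneg ((m 1 : ℤ) - m 2)]
  have hcc' : (univ.filter (fun e : V × V => c e.1 ≠ c e.2)).card =
      2 * (m 0 * m 1 + m 0 * m 2 + m 1 * m 2) := hcc
  rw [Fin.sum_univ_three] at hsplit
  have h0 := hin 0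
  have h1 := hin 1
  have h2 := hin 2
  set a0 := (univ.filter (fun e : V × V => G.Adj e.1 e.2 ∧ c e.1 = 0 ∧ c e.2 = 0)).card with ha0
  set a1 := (univ.filter (fun e : V × V => G.Adj e.1 e.2 ∧ c e.1 = 1 ∧ c e.2 = 1)).card with ha1
  set a2 := (univ.filter (fun e : V × V => G.Adj e.1 e.2 ∧ c e.1 = 2 ∧ c e.2 = 2)).card with ha2
  set X := (univ.filter (fun e : V × V => G.Adj e.1 e.2 ∧ c e.1 ≠ c e.2)).card with hX
  set Y := (univ.filter (fun e : V × V => c e.1 ≠ c e.2)).card with hY
  set q := m 0 * m 1 + m 0 * m 2 + m 1 * m 2 with hq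
  have e0 : a0 = 2 := by omega
  have e1 : a1 = 2 := by omega
  have e2 : a2 = 2 := by omega
  have eX : X = Y := by omega
  have hcross : ∀ u v, c u ≠ c v → G.Adj u v := by
    have heq : univ.filter (fun e : V × V => G.Adj e.1 e.2 ∧ c e.1 ≠ c e.2) =
        univ.filter (fun e : V × V => c e.1 ≠ c e.2) := by
      refine eq_of_subset_of_card_le ?_ (by rw [← hX, ← hY, eX])
      intro e he
      rw [mem_filter] at he ⊢
      exact ⟨he.1, he.2.2⟩
    intro u v huv
    have : (u, v) ∈ univ.filter (fun e : V × V => c e.1 ≠ c e.2) :=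
      mem_filter.2 ⟨mem_univ _, huv⟩
    rw [← heq, mem_filter] at this
    exact this.2.1
  have hinner : ∀ i, ∃ a b, c a = i ∧ c b = i ∧ G.Adj a b := by
    have key : ∀ i, 0 < (univ.filter (fun e : V × V => G.Adj e.1 e.2 ∧ c e.1 = i ∧ c e.2 = i)).card →
        ∃ a b, c a = i ∧ c b = i ∧ G.Adj a b := by
      intro i hi
      obtain ⟨e, he⟩ := card_pos.1 hi
      rw [mem_filter] at he
      exact ⟨e.1, e.2, he.2.2.1, he.2.2.2, he.2.1⟩
    intro i
    fin_cases i
    · exact key 0 (by rw [← ha0]; omega)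
    · exact key 1 (by rw [← ha1]; omega)
    · exact key 2 (by rw [← ha2]; omega)
  choose a b ha hb hab using hinner
  have hcard' : ∀ i, t ≤ (univ.filter (c · = i)).card := by
    intro i
    have h3 : {v | c v = i}.ncard = (univ.filter (c · = i)).card := ncard_filter _
    rw [← h3]
    exact hcard i
  have hex : ∀ i, ∃ A : Finset V, {a i, b i} ⊆ A ∧ A ⊆ univ.filter (c · = i) ∧ A.card = t := by
    intro i
    refine exists_subsuperset_card_eq ?_ (card_le_two.trans ht) (hcard' i)
    intro x hx
    rw [mem_insert, mem_singleton] at hx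
    rw [mem_filter]
    rcases hx with rfl | rfl
    · exact ⟨mem_univ _, ha i⟩
    · exact ⟨mem_univ _, hb i⟩
  choose A hA1 hA2 hA3 using hex
  have hAc : ∀ i, ∀ x ∈ A i, c x = i := fun i x hx => (mem_filter.1 (hA2 i hx)).2
  refine ⟨A, hA3, ?_, Or.inr (Or.inr ?_)⟩
  · intro i j hij x hx y hy
    apply hcross
    rw [hAc i x hx, hAc j y hy]
    exact hij
  · intro i
    exact ⟨a i, hA1 i (mem_insert_self _ _), b i,
      hA1 i (mem_insert_of_mem (mem_singleton_self _)), hab i⟩

end Pool.Agent.N547.OG.Fin
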