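import Pool.Agent.N822.OG.Stm

/-! OG/SIZ+GRD (helper547 for helper822). -/

set_option autoImplicit false

open Finset SimpleGraph Pool.Agent.N822.OG

namespace Pool.Agent.N547.OG.SizGrd

lemma ncard_filter {V : Type} [Fintype V] (p : V → Prop) [DecidablePred p] :
    {z | p z}.ncard = (univ.filter p).card := by
  rw [← Set.ncard_coe_finset]
  congr 1
  ext z
  simp

/-- in a set with at most one edge, a vertex has at most one neighbour -/
lemma inner_le {V : Type} [Fintype V] {G : SimpleGraph V} [DecidableRel G.Adj] {U : Finset V}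
    (h : OneEdge G (U : Set V)) {y : V} (hy : y ∈ U) : (U.filter (G.Adj y)).card ≤ 1 := by
  rw [card_le_one]
  intro a ha b hb
  rw [mem_filter] at ha hb
  rcases h y hy a ha.1 y hy b hb.1 ha.2 hb.2 with h1 | h1
  · exact h1.2
  · exact absurd (h1.1 ▸ hb.2) (G.loopless.irrefl _)

theorem siz : S_SIZ := by
  classical
  intro V _ G q U hq hdeg hdisj hone hcov
  set n := Fintype.card V with hn
  -- degree and missing neighbours
  have hdeg' : ∀ y, 2 * n / 3 ≤ (univ.filter (G.Adj y)).card := by
    intro y
    have h1 := hdeg y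
    have h2 : (G.neighborSet y).ncard = (univ.filter (G.Adj y)).card := ncard_filter (G.Adj y)
    rwa [h2] at h1
  have hsplit : ∀ i, ∀ y ∈ U i, 2 * n / 3 + (univ.filter (fun z => z ∉ U i ∧ ¬ G.Adj y z)).card +
      (U i).card ≤ n + 1 := by
    intro i y hy
    have h1 := hdeg' y
    have h2 := inner_le (hone i) hy
    have h3 : (univ.filter (G.Adj y)).card = ((U i).filter (G.Adj y)).card +
        (univ.filter (fun z => z ∉ U i ∧ G.Adj y z)).card := by
      rw [← card_union_of_disjoint]
      · congr 1
        ext z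
        simp only [mem_filter, mem_univ, true_and, mem_union]
        tauto
      · rw [Finset.disjoint_left]
        intro z hz hz'
        simp only [mem_filter, mem_univ, true_and] at hz hz'
        exact hz'.1 hz.1
    have h4 : (univ.filter (fun z => z ∉ U i)).card + (U i).card = n := by
      have h5 : univ.filter (fun z => z ∉ U i) = (U i)ᶜ := by
        ext z
        simp
      rw [h5, card_compl, hn]
      have := card_le_univ (U i)
      omega
    have h6 : (univ.filter (fun z => z ∉ U i)).card =
        (univ.filter (fun z => z ∉ U i ∧ G.Adj y z)).card +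
        (univ.filter (fun z => z ∉ U i ∧ ¬ G.Adj y z)).card := by
      rw [← card_union_of_disjoint]
      · congr 1
        ext z
        simp only [mem_filter, mem_univ, true_and, mem_union]
        tauto
      · rw [Finset.disjoint_left]
        intro z hz hz'
        simp only [mem_filter, mem_univ, true_and] at hz hz'
        exact hz'.2 hz.2
    omega
  have h1 : ∀ i, 3 * (U i).card ≤ n + 5 := by
    intro i
    rcases (U i).eq_empty_or_nonempty with h | ⟨y, hy⟩
    · rw [h, card_empty]
      omega
    · have := hsplit i y hy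
      omega
  -- the uncovered vertices
  have hr : {v | ∀ i, v ∉ U i}.ncard = (univ.filter (fun v => ∀ i, v ∉ U i)).card :=
    ncard_filter _
  rw [hr] at hcov
  set r := (univ.filter (fun v => ∀ i, v ∉ U i)).card with hrdef
  have hsum : (U 0).card + (U 1).card + (U 2).card + r = n := by
    have e1 : (univ : Finset V) = ((U 0 ∪ U 1) ∪ U 2) ∪ univ.filter (fun v => ∀ i, v ∉ U i) := by
      ext v
      simp only [mem_univ, mem_union, mem_filter, true_and, true_iff]
      by_cases h0 : v ∈ U 0
      · simp [h0]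
      by_cases h1 : v ∈ U 1
      · simp [h1]
      by_cases h2 : v ∈ U 2
      · simp [h2]
      right
      intro i
      fin_cases i
      · exact h0
      · exact h1
      · exact h2
    have e2 : Disjoint (U 0) (U 1) := hdisj 0 1 (by decide)
    have e3 : Disjoint (U 0 ∪ U 1) (U 2) := by
      rw [disjoint_union_left]
      exact ⟨hdisj 0 2 (by decide), hdisj 1 2 (by decide)⟩
    have e4 : Disjoint ((U 0 ∪ U 1) ∪ U 2) (univ.filter (fun v => ∀ i, v ∉ U i)) := by
      rw [Finset.disjoint_left]
      intro v hv hv'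
      rw [mem_filter] at hv'
      rw [mem_union, mem_union] at hv
      rcases hv with (hv | hv) | hv
      · exact hv'.2 0 hv
      · exact hv'.2 1 hv
      · exact hv'.2 2 hv
    rw [hn, ← card_univ, hrdef]
    conv_rhs => rw [e1]
    rw [card_union_of_disjoint e4, card_union_of_disjoint e3, card_union_of_disjoint e2]
  have h2 : ∀ i, q * n ≤ 3 * q * (U i).card + 3 * n + 10 * q := by
    intro i
    have a0 := h1 0
    have a1 := h1 1
    have a2 := h1 2
    have hm : n ≤ 3 * (U i).card + 3 * r + 10 := by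
      fin_cases i
      · show n ≤ 3 * (U 0).card + 3 * r + 10
        omega
      · show n ≤ 3 * (U 1).card + 3 * r + 10
        omega
      · show n ≤ 3 * (U 2).card + 3 * r + 10
        omega
    calc q * n ≤ q * (3 * (U i).card + 3 * r + 10) := Nat.mul_le_mul_left q hm
      _ = 3 * q * (U i).card + 3 * (q * r) + 10 * q := by ring
      _ ≤ _ := by
        have := Nat.mul_le_mul_left 3 hcov
        omega
  refine ⟨h1, h2, ?_⟩
  intro i y hy
  have e0 : {z | z ∉ U i ∧ ¬ G.Adj y z}.ncard =
      (univ.filter (fun z => z ∉ U i ∧ ¬ G.Adj y z)).card := ncard_filter _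
  rw [e0]
  set k := (univ.filter (fun z => z ∉ U i ∧ ¬ G.Adj y z)).card with hk
  have e1 := hsplit i y hy
  have e2 := h2 i
  have e3 : 3 * k + 3 * (U i).card ≤ n + 5 := by omega
  have e4 : q * (3 * k + 3 * (U i).card) ≤ q * (n + 5) := Nat.mul_le_mul_left q e3
  have e5 : q * (3 * k + 3 * (U i).card) = 3 * (q * k) + 3 * q * (U i).card := by ring
  have e6 : q * (n + 5) = q * n + 5 * q := by ring
  rw [e5, e6] at e4
  omega

theorem grd : S_GRD := by
  classical
  intro V _ G t m A₁ U₂ U₃ hA h12 h13 h23 hU2 hU3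
  have hnc : ∀ (x : V) (U : Finset V), {z | z ∈ U ∧ ¬ G.Adj x z}.ncard =
      (U.filter (fun z => ¬ G.Adj x z)).card := by
    intro x U
    rw [← Set.ncard_coe_finset]
    congr 1
    ext z
    simp
  have key : ∀ (A U : Finset V), (∀ x ∈ A, (U.filter (fun z => ¬ G.Adj x z)).card ≤ m) →
      A.card ≤ t → U.card ≤ (U.filter (fun z => ∀ x ∈ A, G.Adj x z)).card + t * m := by
    intro A U hm hA
    have e1 : U ⊆ (U.filter (fun z => ∀ x ∈ A, G.Adj x z)) ∪
        A.biUnion (fun x => U.filter (fun z => ¬ G.Adj x z)) := by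
      intro z hz
      rw [mem_union, mem_filter, mem_biUnion]
      by_cases h : ∀ x ∈ A, G.Adj x z
      · exact Or.inl ⟨hz, h⟩
      · push Not at h
        obtain ⟨x, hx, hxz⟩ := h
        exact Or.inr ⟨x, hx, mem_filter.2 ⟨hz, hxz⟩⟩
    refine (card_le_card e1).trans ((card_union_le _ _).trans ?_)
    have e2 : (A.biUnion (fun x => U.filter (fun z => ¬ G.Adj x z))).card ≤ A.card * m :=
      card_biUnion_le_card_mul _ _ _ hm
    have e3 : A.card * m ≤ t * m := Nat.mul_le_mul_right m hA
    omega
  have h12' : ∀ x ∈ A₁, (U₂.filter (fun z => ¬ G.Adj x z)).card ≤ m := fun x hx => by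
    rw [← hnc]
    exact h12 x hx
  have h13' : ∀ x ∈ A₁, (U₃.filter (fun z => ¬ G.Adj x z)).card ≤ m := fun x hx => by
    rw [← hnc]
    exact h13 x hx
  have h23' : ∀ x ∈ U₂, (U₃.filter (fun z => ¬ G.Adj x z)).card ≤ m := fun x hx => by
    rw [← hnc]
    exact h23 x hx
  have k1 := key A₁ U₂ h12' hA
  obtain ⟨A₂, hA2, hc2⟩ := exists_subset_card_eq
    (show t ≤ (U₂.filter (fun z => ∀ x ∈ A₁, G.Adj x z)).card by omega)
  have hA2U : A₂ ⊆ U₂ := hA2.trans (filter_subset _ _)
  have k2 := key A₁ U₃ h13' hA
  have k3 := key A₂ (U₃.filter (fun z => ∀ x ∈ A₁, G.Adj x z)) (fun x hx => by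
    refine (card_le_card ?_).trans (h23' x (hA2U hx))
    exact filter_subset_filter _ (filter_subset _ _)) hc2.le
  have k4 : t ≤ ((U₃.filter (fun z => ∀ x ∈ A₁, G.Adj x z)).filter
      (fun z => ∀ x ∈ A₂, G.Adj x z)).card := by
    have : 2 * t * m = t * m + t * m := by ring
    omega
  obtain ⟨A₃, hA3, hc3⟩ := exists_subset_card_eq k4
  refine ⟨A₂, A₃, hA2U, hA3.trans ((filter_subset _ _).trans (filter_subset _ _)), hc2, hc3,
    ?_, ?_, ?_⟩
  · intro x hx y hy
    exact (mem_filter.1 (hA2 hy)).2 x hx
  · intro x hx y hy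
    exact (mem_filter.1 (mem_filter.1 (hA3 hy)).1).2 x hx
  · intro x hx y hy
    exact (mem_filter.1 (hA3 hy)).2 x hx

end Pool.Agent.N547.OG.SizGrd
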